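import Pool.Agent.MP_2b7300_co.Defs
import Pool.Agent.MP_250189_co.Mg.H72Main

-- part MP_2b7300_co.Draw
section

/-! Straight-line drawings with integer points are planar; planar graphs have no Kuratowski
minor. -/

set_option autoImplicit false

namespace Pool.Agent.MP_2b7300_co

open Pool.Agent.MP_250189_co Set

variable {V : Type}

theorem Planar.noK {G : SimpleGraph V} (h : Planar G) : NoK G := by
  obtain ⟨f, γ, hf, h1, h2⟩ := h
  let e := Complex.orthonormalBasisOneI.repr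
  let P : ∀ a b, G.Adj a b → Path (f a) (f b) := fun a b k =>
    ⟨⟨γ a b, (h1 a b k).1⟩, (h1 a b k).2.2.1, (h1 a b k).2.2.2.1⟩
  refine noK_of_curves G (fun v => e (f v)) (fun a b k => (P a b k).map e.continuous)
    (e.injective.comp hf) ?_ ?_
  · rintro a b k w ⟨t, ht⟩
    exact (h1 a b k).2.2.2.2 w t (e.injective ht)
  · rintro a b c d k k' hne _ ⟨⟨t, rfl⟩, t', ht⟩
    have ht' : γ c d t' = γ a b t := e.injective ht
    obtain ⟨w, w1, w2, w3⟩ := h2 a b c d k k' hne t t' ht'.symm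
    have : ((P a b k).map e.continuous) t = e (f w) := congrArg e w3
    rw [this]
    exact ⟨by rcases w1 with rfl | rfl <;> simp, by rcases w2 with rfl | rfl <;> simp⟩

/-- twice the signed area -/
def ori (p q r : ℤ × ℤ) : ℤ := (q.1 - p.1) * (r.2 - p.2) - (q.2 - p.2) * (r.1 - p.1)

theorem planar_of_int (G : SimpleGraph V) (p : V → ℤ × ℤ) (hp : Function.Injective p)
    (h1 : ∀ u v, G.Adj u v → ∀ w, w ≠ u → w ≠ v → ori (p u) (p v) (p w) ≠ 0)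
    (h2 : ∀ u v, G.Adj u v → ∀ x y, G.Adj x y → x ≠ u → x ≠ v → y ≠ u → y ≠ v →
      0 < ori (p u) (p v) (p x) * ori (p u) (p v) (p y) ∨
      0 < ori (p x) (p y) (p u) * ori (p x) (p y) (p v)) : Planar G := by
  let f : V → ℂ := fun v => ⟨(p v).1, (p v).2⟩
  let γ : V → V → unitInterval → ℂ := fun u v s => f u + (s : ℝ) * (f v - f u)
  let L : V → V → ℂ → ℝ := fun u v z =>
    (((p v).1 : ℝ) - (p u).1) * (z.im - (p u).2) - (((p v).2 : ℝ) - (p u).2) * (z.re - (p u).1)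
  have hf : Function.Injective f := by
    intro a b k
    have k1 : ((p a).1 : ℝ) = (p b).1 := congrArg Complex.re k
    have k2 : ((p a).2 : ℝ) = (p b).2 := congrArg Complex.im k
    exact hp (Prod.ext (by exact_mod_cast k1) (by exact_mod_cast k2))
  have Lf : ∀ u v w, L u v (f w) = (ori (p u) (p v) (p w) : ℝ) := by
    intro u v w; simp only [L, f, ori, Int.cast_sub, Int.cast_mul]
  have Lg : ∀ u v x y t, L u v (γ x y t) =
      (1 - (t : ℝ)) * (ori (p u) (p v) (p x) : ℝ) + (t : ℝ) * (ori (p u) (p v) (p y) : ℝ) := by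
    intro u v x y t; simp only [L, γ, f, Complex.add_im, Complex.mul_im, Complex.ofReal_re, Complex.sub_im, Complex.ofReal_im, Complex.sub_re, zero_mul, add_zero, Complex.add_re, Complex.mul_re, sub_zero, ori, Int.cast_sub, Int.cast_mul]; ring
  have o1 : ∀ u v, ori (p u) (p v) (p u) = 0 := by intro u v; simp [ori]
  have o2 : ∀ u v, ori (p u) (p v) (p v) = 0 := by intro u v; simp [ori]; ring
  have L0 : ∀ u v s, L u v (γ u v s) = 0 := by intro u v s; rw [Lg, o1, o2]; simp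
  have g0 : ∀ u v, γ u v 0 = f u := by intro u v; simp only [γ, Icc.coe_zero, Complex.ofReal_zero, zero_mul, add_zero]
  have g1 : ∀ u v, γ u v 1 = f v := by intro u v; simp only [γ, Icc.coe_one, Complex.ofReal_one, one_mul, add_sub_cancel]
  have sep : ∀ (a b : ℤ) (t : unitInterval), 0 < a * b →
      (1 - (t : ℝ)) * (a : ℝ) + (t : ℝ) * (b : ℝ) ≠ 0 := by
    intro a b t k e
    have k' : (0 : ℝ) < (a : ℝ) * b := by exact_mod_cast k
    have t0 := t.2.1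
    have t1 := t.2.2
    rcases pos_and_pos_or_neg_and_neg_of_mul_pos k' with ⟨ha, hb⟩ | ⟨ha, hb⟩ <;>
      rcases t0.eq_or_lt with z | z <;> nlinarith only [e, ha, hb, z, t1]
  refine ⟨f, γ, hf, fun u v k => ⟨by fun_prop, ?_, g0 u v, g1 u v, ?_⟩, ?_⟩
  · intro s t e
    have ne : f v - f u ≠ 0 := sub_ne_zero.2 fun z => k.ne (hf z).symm
    have := mul_right_cancel₀ ne (add_left_cancel e)
    exact Subtype.ext (by exact_mod_cast this)
  · intro w s e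
    by_contra hn
    push Not at hn
    have := L0 u v s
    rw [e, Lf] at this
    exact h1 u v k w hn.1 hn.2 (by exact_mod_cast this)
  · intro u v x y k k' ne s t e
    have z : (1 - (t : ℝ)) * (ori (p u) (p v) (p x) : ℝ) +
        (t : ℝ) * (ori (p u) (p v) (p y) : ℝ) = 0 := by rw [← Lg, ← e, L0]
    have z' : (1 - (s : ℝ)) * (ori (p x) (p y) (p u) : ℝ) +
        (s : ℝ) * (ori (p x) (p y) (p v) : ℝ) = 0 := by rw [← Lg, e, L0]
    by_cases hx : x = u ∨ x = v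
    · have hy : y ≠ u ∧ y ≠ v := by
        constructor <;> rintro rfl <;> rcases hx with rfl | rfl
        · exact k'.ne rfl
        · exact ne Sym2.eq_swap
        · exact ne rfl
        · exact k'.ne rfl
      have ox : ori (p u) (p v) (p x) = 0 := by rcases hx with rfl | rfl; exacts [o1 _ _, o2 _ _]
      have oy : (ori (p u) (p v) (p y) : ℝ) ≠ 0 := by exact_mod_cast h1 u v k y hy.1 hy.2
      rw [ox] at z
      have t0 : t = 0 := Subtype.ext (by simpa only [Icc.coe_zero, Icc.coe_eq_zero, Int.cast_zero, mul_zero, zero_add, mul_eq_zero, oy, or_false] using z)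
      exact ⟨x, hx, Or.inl rfl, by rw [e, t0, g0]⟩
    · push Not at hx
      by_cases hy : y = u ∨ y = v
      · have oy : ori (p u) (p v) (p y) = 0 := by rcases hy with rfl | rfl; exacts [o1 _ _, o2 _ _]
        have ox : (ori (p u) (p v) (p x) : ℝ) ≠ 0 := by exact_mod_cast h1 u v k x hx.1 hx.2
        rw [oy] at z
        have t1 : t = 1 := Subtype.ext (by
          have : 1 - (t : ℝ) = 0 := by simpa [ox] using z
          show (t : ℝ) = 1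
          linarith only [this])
        exact ⟨y, hy, Or.inr rfl, by rw [e, t1, g1]⟩
      · push Not at hy
        rcases h2 u v k x y k' hx.1 hx.2 hy.1 hy.2 with q | q
        · exact absurd z (sep _ _ t q)
        · exact absurd z' (sep _ _ s q)

end Pool.Agent.MP_2b7300_co

end

-- part MP_2b7300_co.Ex
section

/-! A triangulation on 36 vertices: drawing, maximality, and its proper 4-colourings. -/

set_option autoImplicit false

namespace Pool.Agent.MP_2b7300_co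

open Pool.Agent.MP_250189_co Set

/-- adjacency matrix as a bit string -/
def A : ℕ :=
  639463359134586043622152403618647284701799999575016789738210537830994140911279751020717191209244051091467629695173180498661710827347355517516263747086835379998320198530908726395531952834855118085341597801403284059898378206725069699569010108884741975728595076748221276984914374317073262863213980350864424305959667905983611431866087062804702170886531193506692653954639862937454170535119290398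

def adj (a b : ℕ) : Bool := a < 36 && b < 36 && A.testBit (36 * a + b)

def T : SimpleGraph (Fin 36) where
  Adj u v := adj u v = true
  symm := ⟨by decide +kernel⟩
  loopless := ⟨by decide +kernel⟩

instance : DecidableRel T.Adj := fun u v => inferInstanceAs (Decidable (adj u v = true))

def X : ℕ :=
  231856341783026156252616555495118364529224466402897626133794330205970703122183588104603651008710941702554723

def Y : ℕ :=
  670358473807654296722774761500334333848300917042032870791332099536768393955020650806149668268546216461190302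

def pt (v : Fin 36) : ℤ × ℤ := ((X >>> (10 * v.val) % 1024 : ℕ), (Y >>> (10 * v.val) % 1024 : ℕ))

def EL : List (Fin 36 × Fin 36) := [
  (0,1), (0,2), (0,3), (0,4), (1,2), (1,4), (1,5), (1,6), (2,3), (2,6), (2,7), (3,4), (3,7),
  (3,8), (3,16), (3,19), (3,22), (3,23), (3,27), (3,30), (3,33), (3,34), (4,5), (4,8), (4,25),
  (4,27), (4,28), (5,6), (5,8), (5,9), (5,10), (6,7), (6,10), (6,11), (7,8), (7,11), (7,12),
  (7,17), (7,18), (7,20), (7,23), (7,24), (8,9), (8,12), (8,13), (8,14), (8,16), (8,17), (8,28),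
  (8,29), (8,31), (8,34), (8,35), (9,10), (9,13), (10,11), (10,13), (11,12), (11,13), (12,13),
  (14,15), (14,16), (14,17), (15,16), (15,17), (15,18), (15,19), (16,19), (17,18), (18,19),
  (18,20), (18,21), (19,21), (19,22), (20,21), (20,24), (21,22), (21,24), (22,23), (22,24),
  (23,24), (25,26), (25,27), (25,28), (26,27), (26,28), (26,29), (26,30), (27,30), (28,29),
  (29,30), (29,31), (29,32), (30,32), (30,33), (31,32), (31,35), (32,33), (32,35), (33,34),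
  (33,35), (34,35)]

def Sep (u v x y : Fin 36) : Prop :=
  x = u ∨ x = v ∨ y = u ∨ y = v ∨ 0 < ori (pt u) (pt v) (pt x) * ori (pt u) (pt v) (pt y) ∨
    0 < ori (pt x) (pt y) (pt u) * ori (pt x) (pt y) (pt v)

instance (u v x y : Fin 36) : Decidable (Sep u v x y) := by unfold Sep; infer_instance

lemma Sep.symm {u v x y : Fin 36} (h : Sep u v x y) : Sep x y u v := by
  unfold Sep at *
  rcases h with h | h | h | h | h | h <;> simp only [h, true_or, or_true]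

lemma Sep.swap {u v x y : Fin 36} (h : Sep u v x y) : Sep v u x y := by
  unfold Sep at *
  have e : ori (pt v) (pt u) (pt x) * ori (pt v) (pt u) (pt y) =
      ori (pt u) (pt v) (pt x) * ori (pt u) (pt v) (pt y) := by unfold ori; ring
  rw [e, mul_comm (ori (pt x) (pt y) (pt v))]
  tauto

lemma EL_sep : EL.Pairwise fun e f => Sep e.1 e.2 f.1 f.2 := by decide +kernel

lemma EL_all : ∀ u v, T.Adj u v → (u, v) ∈ EL ∨ (v, u) ∈ EL := by decide +kernel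

theorem T_planar : Planar T := by
  refine planar_of_int T pt (by unfold Function.Injective; decide +kernel) (by decide +kernel) ?_
  have k : ∀ e ∈ EL, ∀ f ∈ EL, Sep e.1 e.2 f.1 f.2 := fun e he f hf =>
    List.Pairwise.forall_of_forall_of_flip (R := fun e f : Fin 36 × Fin 36 => Sep e.1 e.2 f.1 f.2)
      (fun _ _ => Or.inl rfl) EL_sep (EL_sep.imp Sep.symm) he hf
  intro u v h x y h' n1 n2 n3 n4
  have : Sep u v x y := by
    rcases EL_all u v h with a | a <;> rcases EL_all x y h' with b | b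
    · exact k _ a _ b
    · exact (k _ b _ a).swap.symm
    · exact (k _ a _ b).swap
    · exact (k _ a _ b).swap.symm.swap.symm
  rcases this with z | z | z | z | z
  exacts [absurd z n1, absurd z n2, absurd z n3, absurd z n4, z]

def S (L : List ℕ) : Set (Fin 36) := {x | x.val ∈ L}

def tch (L M : List ℕ) : Bool := L.any fun a => M.any fun b => adj a b

def conn : List ℕ → Bool
  | [] => true
  | a :: L => (L.isEmpty || tch [a] L) && conn L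

lemma tch_ok {L M : List ℕ} (h : tch L M = true) : Tch T (S L) (S M) := by
  simp only [tch, List.any_eq_true] at h
  obtain ⟨a, ha, b, hb, k⟩ := h
  have k' := k
  simp only [adj, Bool.and_eq_true, decide_eq_true_eq] at k'
  exact ⟨⟨a, k'.1.1⟩, ha, ⟨b, k'.1.2⟩, hb, k⟩

lemma conn_one (a : ℕ) : Conn T (S [a]) := by
  intro x hx y hy
  have : x = y := Fin.ext ((List.mem_singleton.1 hx).trans (List.mem_singleton.1 hy).symm)
  rw [this]; exact Reach.refl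

lemma conn_ok : ∀ L : List ℕ, conn L = true → Conn T (S L)
  | [], _ => fun _ h => by simp [S] at h
  | a :: L, h => by
    simp only [conn, Bool.and_eq_true, Bool.or_eq_true, List.isEmpty_iff] at h
    rcases h.1 with rfl | k
    · exact conn_one a
    · have : S (a :: L) = S [a] ∪ S L := by ext x; simp [S]
      rw [this]
      exact (conn_one a).union (conn_ok L h.2) (tch_ok k)

abbrev Cert := ℕ × ℕ × List ℕ × List ℕ × List ℕ

def Cert.B (c : Cert) : Fin 5 → List ℕ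
  | 0 => [c.1]
  | 1 => [c.2.1]
  | 2 => c.2.2.1
  | 3 => c.2.2.2.1
  | 4 => c.2.2.2.2

def Cert.ok (c : Cert) : Prop :=
  ∀ i, conn (c.B i) = true ∧ ∀ j, i < j → ((c.B i).all fun a => (c.B j).all fun b => a != b) = true ∧
    (j = 1 ∨ tch (c.B i) (c.B j) = true)

instance (c : Cert) : Decidable c.ok := by unfold Cert.ok; infer_instance

lemma Cert.bad {c : Cert} (h : c.ok) {H : SimpleGraph (Fin 36)} (le : T ≤ H) {u v : Fin 36}
    (hu : c.1 = u) (hv : c.2.1 = v) (k : H.Adj u v) : ¬ NoK H := by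
  intro nk
  have d : ∀ i j, i < j → Disjoint (S (c.B i)) (S (c.B j)) := by
    intro i j ij
    have := ((h i).2 j ij).1
    simp only [List.all_eq_true, bne_iff_ne] at this
    exact Set.disjoint_left.2 fun x hx hy => this _ hx _ hy rfl
  have t : ∀ i j, i < j → Tch H (S (c.B i)) (S (c.B j)) := by
    intro i j ij
    rcases ((h i).2 j ij).2 with rfl | q
    · have : i = 0 := by omega
      subst this
      exact ⟨u, by simp [S, Cert.B, hu], v, by simp [S, Cert.B, hv], k⟩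
    · exact (tch_ok q).mono le subset_rfl subset_rfl
  refine nk.2 (fun i => S (c.B i)) ⟨fun i => (conn_ok _ (h i).1).mono le, fun i j ij => ?_,
    fun i j ij => ?_⟩
  · rcases lt_or_gt_of_ne ij with q | q
    exacts [d i j q, (d j i q).symm]
  · rcases lt_or_gt_of_ne ij with q | q
    exacts [t i j q, (t j i q).symm]

def C0 : List Cert := [
  (0,5,[8,3],[2,1],[4]), (0,6,[4,1],[2],[7,3]), (0,7,[8,5,1],[3],[2]), (0,8,[3],[4],[7,2,1]),
  (0,9,[5,4],[10,6,1],[8,7,3]), (0,10,[11,7,3],[6,1],[5,4]), (0,11,[7,3],[6,1],[10,5,4]),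
  (0,12,[13,9,5,1],[8,3],[11,6,2]), (0,13,[11,7,2],[9,5,1],[8,3]), (0,14,[16,3],[8,4],[17,7,6,1]),
  (0,15,[17,8,4],[19,3],[18,7,2]), (0,16,[19,18,7,2],[3],[8,4]), (0,17,[18,19,3],[7,2],[8,4]),
  (0,18,[19,3],[17,8,4],[7,2]), (0,19,[3],[22,23,7,6,1],[16,8,4]),
  (0,20,[18,17,8,4],[24,23,3],[7,2]), (0,21,[18,17,8,4],[22,3],[20,7,2]),
  (0,22,[24,7,2],[3],[19,15,14,8,4]), (0,23,[3],[22,19,15,17,8,4],[7,2]),
  (0,24,[20,18,17,8,4],[23,3],[7,2]), (0,25,[28,8,5,1],[27,3],[4]),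
  (0,26,[30,3],[27,4],[29,8,5,6,2]), (0,27,[26,28,8,5,1],[4],[3]), (0,28,[8,7,2],[4],[29,30,3]),
  (0,29,[30,3],[28,4],[8,7,2]), (0,30,[27,4],[3],[32,35,8,5,1]),
  (0,31,[29,28,4],[32,33,3],[8,7,2]), (0,32,[29,28,4],[30,3],[35,8,5,1]),
  (0,33,[35,8,5,1],[3],[30,27,4]), (0,34,[33,30,29,28,4],[8,7,2],[3]),
  (0,35,[31,29,28,4],[8,7,2],[33,3]), (1,3,[2,0],[8,4],[7,6]), (1,7,[6],[3,2],[8,5]),
  (1,8,[3,0],[4],[7,6,5]), (1,9,[13,8,4],[5],[10,6]), (1,10,[13,7,8,4],[6],[5]),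
  (1,11,[6,5],[7,2],[13,8,4]), (1,12,[13,9,5],[7,6],[8,3,0]), (1,13,[8,4],[9,5],[12,7,6]),
  (1,14,[8,5],[17,7,6],[16,3,0]), (1,15,[16,3,0],[19,21,24,7,6],[17,8,4]),
  (1,16,[8,4],[3,2],[15,18,7,6]), (1,17,[7,2],[8,5],[14,16,3,0]), (1,18,[7,2],[17,8,4],[19,3,0]),
  (1,19,[16,8,5],[18,7,2],[4,3]), (1,20,[7,2],[18,17,8,5],[24,23,3,0]),
  (1,21,[19,16,8,5],[18,7,6],[24,23,4,3]), (1,22,[23,7,2],[19,16,8,5],[3,0]),
  (1,23,[22,21,18,17,8,4],[7,6],[3,0]), (1,24,[22,3,0],[7,6],[20,18,17,8,5]),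
  (1,25,[4],[28,8,5],[27,3,2]), (1,26,[28,4],[27,3,2],[29,8,5]), (1,27,[3,2],[26,29,8,5],[4]),
  (1,28,[4],[26,30,3,2],[8,7,6]), (1,29,[28,4],[30,3,0],[8,5]), (1,30,[27,4],[3,0],[29,8,5]),
  (1,31,[8,5],[29,28,4],[35,33,3,0]), (1,32,[29,8,5],[30,27,4],[33,3,0]),
  (1,33,[3,2],[30,27,4],[34,8,5]), (1,34,[8,5],[3,2],[33,32,29,28,4]),
  (1,35,[8,5],[33,30,27,4],[34,3,2]), (2,4,[8,5,1],[0],[3]), (2,5,[4,1],[8,7],[6]),
  (2,8,[9,10,6],[7,3],[4,1]), (2,9,[10,6],[5,4,3],[8,7]), (2,10,[7,6],[9,8,3],[5,1])]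

def C1 : List Cert := [
  (2,11,[10,9,8,3],[7],[6]), (2,12,[11,6,5],[7],[8,3]), (2,13,[9,6,5],[11,7],[8,3]),
  (2,14,[8,4,0],[16,3],[17,7]), (2,15,[14,8,5,1],[18,7],[19,3]), (2,16,[15,17,7],[3],[8,6,5]),
  (2,17,[7],[8,6,5],[18,21,22,3]), (2,18,[7],[17,8,4,1],[19,3]), (2,19,[3],[16,8,6,5],[18,7]),
  (2,20,[18,17,8,5,1],[24,23,3],[7]), (2,21,[22,3],[18,17,8,4,1],[24,7]),
  (2,22,[24,7],[3],[19,16,8,4,0]), (2,23,[22,19,16,8,4,0],[7],[3]),
  (2,24,[21,19,16,8,5,1],[22,3],[7]), (2,25,[28,8,7],[27,3],[4,1]),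
  (2,26,[28,4,1],[27,3],[29,8,7]), (2,27,[26,28,8,7],[3],[4,1]), (2,28,[6,5,4],[29,30,3],[8,7]),
  (2,29,[30,3],[8,7],[28,4,0]), (2,30,[3],[27,4,1],[29,8,7]), (2,31,[29,28,4,0],[32,30,3],[8,7]),
  (2,32,[30,27,4,0],[33,3],[31,8,7]), (2,33,[34,8,7],[30,26,25,4,1],[3]),
  (2,34,[33,30,27,4,0],[3],[8,7]), (2,35,[8,7],[32,30,27,4,1],[34,3]), (3,5,[4],[8,7],[2,1]),
  (3,6,[2],[4,1],[8,7]), (3,9,[8],[5,2,1],[13,12,7]), (3,10,[5,2,1],[9,8],[11,7]),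
  (3,11,[6,2],[7],[12,8,5]), (3,12,[11,6,2],[7],[8,5]), (3,13,[8],[10,5,4],[11,7]),
  (3,14,[8],[16,15],[17,7]), (3,15,[14,8],[18,7],[19,16]), (3,17,[19,18],[16,8],[7]),
  (3,18,[7],[17,16,8],[20,21,19]), (3,20,[18,17,8],[24,7],[22,21]), (3,21,[18,7],[19],[23,22]),
  (3,24,[23,22],[21,19,17,15],[7]), (3,25,[28,8],[4],[27,26]), (3,26,[27,8,4],[30],[33,32,29]),
  (3,28,[27,4],[8],[30,29]), (3,29,[28,27,4],[33,35,8],[30]), (3,31,[29,28,4],[35,33,30],[8]),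
  (3,32,[30,29],[33],[35,8]), (3,35,[32,31,8],[33],[34]), (4,6,[2,1],[7,3],[8,5]),
  (4,7,[2,1],[3],[8,5]), (4,9,[8],[10,7,6,1],[5]), (4,10,[5],[9,8],[6,3,2]),
  (4,11,[6,5],[13,8],[7,3]), (4,12,[8],[7,3],[11,10,5]), (4,13,[8],[11,7,3],[10,5]),
  (4,14,[17,7,6,1],[8],[16,3]), (4,15,[16,3],[17,8],[18,7,2,1]), (4,16,[8],[3],[19,18,7,6,1]),
  (4,17,[14,16,3],[7,6,1],[8]), (4,18,[7,2,0],[21,22,3],[17,8]), (4,19,[18,7,6,5],[3],[16,8]),
  (4,20,[24,23,3],[18,17,8],[7,6,5]), (4,21,[18,17,8],[19,3],[20,7,2,1]),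
  (4,22,[21,18,17,8],[23,7,2,1],[3]), (4,23,[7,2,0],[22,19,16,8],[3]),
  (4,24,[7,6,1],[23,3],[20,18,17,8]), (4,26,[30,27,25],[28],[29,8]),
  (4,29,[32,33,3],[28,8],[27,26])]

def C2 : List Cert := [
  (4,30,[32,35,8],[29,28,25],[27,3]), (4,31,[8],[29,28],[32,33,3]),
  (4,32,[30,29,28],[33,3],[35,8]), (4,33,[3],[34,8],[30,29,28]),
  (4,34,[35,32,29,28],[33,30,27],[8,3]), (4,35,[8],[31,30,29,28],[34,3]),
  (5,7,[11,6,2],[4,3],[13,8]), (5,11,[13,10],[6],[8,7]), (5,12,[8],[7,6],[13,10]),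
  (5,13,[10,9],[12,7,6],[8]), (5,14,[16,4,3],[8],[17,7,6]), (5,15,[18,7,6],[17,8],[19,4,3]),
  (5,16,[8],[4,3],[15,17,10,11,7]), (5,17,[15,16,4,3],[8],[7,6]),
  (5,18,[21,22,6,3,2],[17,8],[10,11,7]), (5,19,[18,7,6],[4,3],[16,8]),
  (5,20,[18,17,8],[10,11,7],[24,22,4,3]), (5,21,[22,4,3],[20,7,6],[18,17,8]),
  (5,22,[4,3],[19,16,8],[23,9,13,11,7]), (5,23,[3,1,0],[7,6],[22,19,16,8]),
  (5,24,[10,11,7],[22,3,2,1],[21,19,16,8]), (5,25,[28,8],[4],[27,6,3,2]),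
  (5,26,[28,8],[27,4],[30,10,11,7,3]), (5,27,[4],[6,3,2],[30,33,34,8]),
  (5,28,[29,32,33,3,1,0],[4],[8]), (5,29,[8],[28,4],[30,6,7,3]), (5,30,[3,2,1],[29,8],[27,4]),
  (5,31,[8],[32,30,6,7,3],[29,28,4]), (5,32,[31,8],[30,27,4],[33,10,11,7,3]),
  (5,33,[30,27,4],[3,1,0],[34,8]), (5,34,[8],[6,7,3],[35,32,29,28,4]),
  (5,35,[31,29,28,4],[8],[34,3,1,0]), (6,8,[11,13,9],[5,4],[7,3]), (6,9,[10],[5],[11,8,7]),
  (6,12,[8,4,1],[13,11],[7]), (6,13,[10],[11],[7,8,5]), (6,14,[17,7],[8,5],[16,3,2]),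
  (6,15,[16,3,2],[19,22,23,7],[17,8,5]), (6,16,[19,18,7],[11,13,8],[3,2]),
  (6,17,[11,13,8],[15,16,3,2],[7]), (6,18,[19,5,4,3],[17,11,12,8],[7]),
  (6,19,[16,8,5],[18,7],[3,2]), (6,20,[24,22,3,2],[7],[18,17,8,5]),
  (6,21,[22,3,2],[18,17,8,5],[20,7]), (6,22,[21,18,17,8,5],[3,2],[23,7]),
  (6,23,[5,4,3],[7],[24,21,19,16,10,9,8]), (6,24,[21,18,15,14,11,12,8],[7],[23,3,2]),
  (6,25,[5,4],[28,10,13,8],[27,7,3]), (6,26,[28,4,1],[27,7,3],[29,11,12,8]),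
  (6,27,[30,29,8,7],[5,4],[3,2]), (6,28,[8,5],[26,30,7,3],[4,2,0]),
  (6,29,[28,4,1],[8,5],[30,7,3]), (6,30,[7,3],[29,10,13,8],[27,4,1]),
  (6,31,[32,30,7,3],[11,13,8],[29,28,5,4]), (6,32,[29,28,5,4],[35,8,7],[30,3,2]),
  (6,33,[30,27,5,4],[35,10,13,8],[7,3]), (6,34,[10,9,8],[7,3],[33,30,27,4,1]),
  (6,35,[31,29,28,5,4],[11,12,8],[33,7,3]), (7,9,[13,11],[8],[6,5]), (7,10,[6],[12,8,5],[11]),
  (7,13,[12],[8],[11,10,5]), (7,14,[17],[15,19,3],[8]), (7,15,[18,17,8],[16,3],[23,22,19]),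
  (7,16,[19,17,15],[8],[3]), (7,19,[17,16,14],[22,21,18],[3]), (7,21,[24,22],[19,18],[20])]

def C3 : List Cert := [
  (7,22,[24],[21,19,3],[23]), (7,25,[6,4,1],[28,8],[27,3]), (7,26,[25,6,5,4],[27,3],[29,8]),
  (7,27,[26,29,8],[6,5,4],[3]), (7,28,[8],[6,4,1],[25,27,3]), (7,29,[8],[32,33,3],[28,4,2,0]),
  (7,30,[27,6,4,1],[29,8],[3]), (7,31,[29,28,6,5,4],[8],[35,33,3]),
  (7,32,[33,3],[30,26,25,6,5,4],[31,8]), (7,33,[30,27,4,2,0],[3],[35,8]),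
  (7,34,[8],[3],[33,30,27,6,4,1]), (7,35,[34,3],[32,29,28,4,2,0],[8]),
  (8,10,[13,12,7],[9,5],[6,3,2]), (8,11,[12,7],[13],[10,5,4,3]), (8,15,[16],[17,7,3],[14]),
  (8,18,[17,15],[7],[19,3]), (8,19,[18,17],[7,3],[16,15]), (8,20,[7],[18,16,15],[24,22,3]),
  (8,21,[24,7],[22,3],[18,19,16]), (8,22,[23,7],[19,18,17],[3]), (8,23,[3],[22,21,18,17],[7]),
  (8,24,[22,21,18,15,14],[7],[23,3]), (8,25,[27,3],[4],[28,26]), (8,26,[29],[28,4],[30,3]),
  (8,27,[4],[30,29,28],[3]), (8,30,[33,32,29,26],[3],[27,4]), (8,32,[35],[34,30,3],[31,29]),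
  (8,33,[35,32,30],[34],[3]), (9,11,[13],[10],[8,7,6]), (9,12,[13],[8],[11,6,5]),
  (9,14,[17,10,11,7],[8],[16,5,4,3]), (9,15,[19,10,6,3,2],[18,13,11,7],[16,8]),
  (9,16,[15,17,10,11,7],[5,4,3],[8]), (9,17,[8],[15,16,5,4,3],[10,11,7]),
  (9,18,[13,12,7],[17,8],[20,24,22,5,4,3]), (9,19,[21,24,13,12,7],[10,6,3,2],[16,8]),
  (9,20,[21,19,5,4,3],[13,11,7],[18,17,8]), (9,21,[24,13,12,7],[19,5,4,3],[18,17,8]),
  (9,22,[23,10,7,6],[19,16,8],[5,4,3]), (9,23,[22,19,16,8],[5,4,3],[13,12,7]),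
  (9,24,[21,19,16,8],[13,12,7],[22,10,6,3,2]), (9,25,[27,13,12,7,3],[28,8],[5,4]),
  (9,26,[25,5,4],[28,8],[30,13,12,7,3]), (9,27,[5,4],[10,11,7,3],[26,28,8]),
  (9,28,[8],[29,30,10,6,3,2],[5,4]), (9,29,[28,5,4],[8],[30,10,6,7,3]),
  (9,30,[13,11,7,3],[27,5,4],[33,34,8]), (9,31,[29,28,5,4],[8],[35,33,10,11,7,3]),
  (9,32,[35,8],[30,27,5,4],[33,13,11,7,3]), (9,33,[30,27,5,4],[34,8],[13,11,7,3]),
  (9,34,[8],[33,30,27,5,4],[10,11,7,3]), (9,35,[8],[32,29,28,5,4],[33,13,11,7,3]),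
  (10,12,[7,6],[13,11],[8,5]), (10,14,[16,5,4,3],[17,7,6],[9,8]),
  (10,15,[16,6,3,2],[17,8,5],[18,11,7]), (10,16,[15,17,11,7],[8,5],[6,3,2]),
  (10,17,[18,19,5,4,3],[7,6],[9,8]), (10,18,[17,8,5],[19,6,3,2],[11,7]),
  (10,19,[5,4,3],[22,24,11,7],[15,17,9,8]), (10,20,[13,12,7],[21,22,6,3,2],[18,17,9,8]),
  (10,21,[18,11,7],[22,6,3,2],[19,16,8,5]), (10,22,[24,11,7],[6,3,2],[19,16,9,8]),
  (10,23,[6,3,2],[22,19,16,9,8],[11,7]), (10,24,[11,7],[23,5,4,3],[21,19,16,9,8]),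
  (10,25,[5,4],[27,13,12,7,3],[28,9,8]), (10,26,[29,13,8],[25,5,4],[30,6,3,2])]

def C4 : List Cert := [
  (10,27,[5,4],[26,29,9,8],[6,3,2]), (10,28,[29,32,33,6,3,2],[5,4],[9,8]),
  (10,29,[28,5,4],[32,33,6,7,3],[13,8]), (10,30,[27,5,4],[29,9,8],[6,7,3]),
  (10,31,[9,8],[32,30,11,7,3],[29,28,5,4]), (10,32,[29,28,5,4],[30,6,3,2],[31,13,8]),
  (10,33,[34,13,8],[11,7,3],[30,26,28,5,4]), (10,34,[6,7,3],[13,8],[33,30,27,5,4]),
  (10,35,[31,29,28,5,4],[34,6,3,2],[9,8]), (11,14,[17,7],[15,19,6,3,2],[13,8]),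
  (11,15,[19,6,3,2],[18,7],[17,13,8]), (11,16,[14,17,7],[12,8],[6,3,2]),
  (11,17,[7],[13,8],[14,16,10,5,4,3]), (11,18,[17,13,8],[7],[19,6,3,2]),
  (11,19,[6,3,2],[22,24,7],[16,13,8]), (11,20,[18,17,13,8],[7],[24,22,6,3,2]),
  (11,21,[18,17,12,8],[20,7],[19,6,3,2]), (11,22,[23,7],[6,3,2],[19,15,17,13,8]),
  (11,23,[6,3,2],[7],[22,21,18,17,12,8]), (11,24,[23,6,3,2],[7],[22,19,16,13,8]),
  (11,25,[28,13,8],[26,30,7,3],[6,4,1]), (11,26,[29,13,8],[27,6,5,4],[30,7,3]),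
  (11,27,[10,5,4],[7,3],[26,28,13,8]), (11,28,[13,8],[6,5,4],[25,27,7,3]),
  (11,29,[12,8],[28,10,5,4],[30,7,3]), (11,30,[33,35,12,8],[7,3],[27,10,5,4]),
  (11,31,[12,8],[35,34,7,3],[29,28,6,4,1]), (11,32,[33,7,3],[29,28,10,5,4],[31,13,8]),
  (11,33,[34,13,8],[30,27,10,5,4],[6,3,2]), (11,34,[33,30,27,13,9,5,4],[6,3,2],[8,7]),
  (11,35,[13,8],[33,30,27,6,4,1],[34,7,3]), (12,14,[17,7],[16,13,9,5,4,3],[8]),
  (12,15,[18,7],[17,8],[16,11,6,3,2]), (12,16,[14,17,7],[11,6,3,2],[8]),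
  (12,17,[7],[15,19,11,6,3,2],[8]), (12,18,[19,16,8],[7],[21,22,11,6,3,2]),
  (12,19,[13,10,6,3,2],[22,23,7],[18,17,8]), (12,20,[21,19,11,6,3,2],[18,17,8],[7]),
  (12,21,[22,11,6,3,2],[19,16,8],[18,7]), (12,22,[13,10,5,4,3],[24,7],[19,15,17,8]),
  (12,23,[7],[22,19,16,8],[13,9,5,4,3]), (12,24,[23,11,6,3,2],[7],[21,19,16,8]),
  (12,25,[27,7,3],[13,10,5,4],[28,8]), (12,26,[29,8],[27,13,9,5,4],[30,7,3]),
  (12,27,[11,10,5,4],[26,28,8],[7,3]), (12,28,[11,10,5,4],[8],[29,30,7,3]),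
  (12,29,[30,27,13,10,5,4],[32,33,7,3],[8]), (12,30,[29,8],[27,11,6,4,1],[7,3]),
  (12,31,[29,28,13,9,5,4],[35,34,7,3],[8]), (12,32,[29,28,13,9,5,4],[33,34,8],[30,7,3]),
  (12,33,[34,8],[30,26,25,11,6,4,1],[7,3]), (12,34,[8],[7,3],[35,31,29,28,11,10,5,4]),
  (12,35,[32,29,28,11,10,5,4],[33,7,3],[8]), (13,14,[8],[16,9,5,4,3],[17,12,7]),
  (13,15,[18,12,7],[17,8],[16,10,6,3,2]), (13,16,[10,5,4,3],[8],[15,18,11,7]),
  (13,17,[8],[12,7],[14,16,9,5,4,3]), (13,18,[12,7],[19,10,5,3,1,0],[17,8]),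
  (13,19,[16,8],[11,6,3,2],[18,12,7]), (13,20,[24,22,11,6,3,2],[18,17,8],[12,7]),
  (13,21,[20,11,7],[22,9,5,4,3],[18,17,8]), (13,22,[19,16,8],[9,5,4,3],[23,11,7]),
  (13,23,[10,6,3,2],[12,7],[22,21,18,17,8]), (13,24,[20,18,17,8],[11,7],[22,9,5,4,3]),
  (13,25,[28,8],[9,5,4],[27,11,7,3]), (13,26,[28,9,5,4],[27,12,7,3],[30,32,31,8])]

def C5 : List Cert := [
  (13,27,[26,28,8],[12,7,3],[10,5,4]), (13,28,[8],[26,27,11,7,3],[9,5,4]),
  (13,29,[8],[28,9,5,4],[30,12,7,3]), (13,30,[27,9,5,4],[29,8],[11,7,3]),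
  (13,31,[29,28,10,5,4],[8],[35,34,12,7,3]), (13,32,[33,12,7,3],[31,8],[30,27,10,5,4]),
  (13,33,[11,7,3],[35,8],[30,27,9,5,4]), (13,34,[33,30,27,10,5,4],[8],[11,7,3]),
  (13,35,[8],[32,29,28,10,5,4],[34,12,7,3]), (14,18,[17],[15],[16,7,3]),
  (14,19,[15],[18,17,7],[16,3]), (14,20,[21,19,16],[18,15],[8,7]),
  (14,21,[24,23,16,3],[19,15],[18,8,7]), (14,22,[16,3],[19,15],[23,17,7]),
  (14,23,[8,3],[24,22,19,16],[17,7]), (14,24,[20,18,17],[22,19,16],[8,7]),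
  (14,25,[27,15,19,3],[28,8],[17,7,4,2,0]), (14,26,[29,8],[30,16,3],[28,17,7,4,2,1]),
  (14,27,[30,32,31,8],[16,3],[17,7,6,5,4]), (14,28,[17,7,4,2,0],[29,32,33,16,3],[8]),
  (14,29,[8],[26,27,16,3],[28,17,7,6,5,4]), (14,30,[16,3],[32,31,8],[27,17,7,4,2,0]),
  (14,31,[35,34,16,3],[8],[29,28,17,7,4,2,1]), (14,32,[35,34,16,3],[31,8],[30,27,17,7,6,5,4]),
  (14,33,[34,8],[30,27,17,7,4,2,1],[16,3]), (14,34,[16,3],[8],[33,30,27,17,7,4,2,0]),
  (14,35,[8],[32,29,28,17,7,4,2,1],[34,16,3]), (15,20,[17,7],[24,22,19],[18]),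
  (15,21,[18,7],[19],[22,16,3]), (15,22,[16,7,3],[21,18],[19]), (15,23,[16,3],[17,7],[22,21,18]),
  (15,24,[22,19,3],[17,7],[20,18]), (15,25,[28,17,8],[27,16,3],[18,7,4,2,1]),
  (15,26,[27,17,7,4,2,0],[30,19,3],[29,14,8]), (15,27,[26,29,14,8],[17,7,6,5,4],[19,3]),
  (15,28,[26,30,16,3],[17,8],[18,7,4,2,0]), (15,29,[28,17,7,4,2,0],[30,19,3],[16,8]),
  (15,30,[27,18,7,6,5,4],[16,3],[32,31,14,8]), (15,31,[32,33,19,3],[29,28,17,7,4,2,0],[16,8]),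
  (15,32,[33,19,3],[31,16,8],[30,27,18,7,6,4,1]), (15,33,[19,3],[35,17,8],[30,27,18,7,4,2,1]),
  (15,34,[16,3],[33,32,29,28,18,7,6,4,1],[14,8]), (15,35,[32,30,27,17,7,6,4,1],[14,8],[33,16,3]),
  (16,17,[18,15,14],[8],[7,3]), (16,18,[19],[20,24,22,3],[15,17,8]),
  (16,20,[24,23,3],[21,19],[18,17,8]), (16,21,[15,18,7],[22,3],[19]),
  (16,22,[3],[19],[24,18,8,7]), (16,23,[24,20,18,17,8],[22,19],[3]),
  (16,24,[22,3],[20,21,19],[8,7]), (16,25,[28,8],[15,17,7,4,2,1],[27,3]),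
  (16,26,[28,14,17,7,12,13,9,5,4],[27,3],[29,8]), (16,27,[3],[26,28,8],[15,18,7,4,2,1]),
  (16,28,[26,27,3],[8],[15,17,7,6,5,4]), (16,29,[8],[28,19,18,7,6,5,4],[32,33,3]),
  (16,30,[26,25,19,18,7,6,4,1],[3],[29,8]), (16,31,[29,28,19,18,7,4,2,1],[32,30,3],[8]),
  (16,32,[35,8],[33,3],[29,28,19,18,7,6,4,1]), (16,33,[3],[30,27,14,17,7,4,2,0],[35,8]),
  (16,34,[8],[33,30,27,15,18,7,4,2,0],[3]), (16,35,[8],[32,30,27,19,18,7,6,4,1],[33,3]),
  (17,19,[18],[15],[16,8,7]), (17,20,[18],[7],[21,15,19,3]), (17,21,[19,18],[20,7],[22,8,3]),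
  (17,22,[24,20,18],[7,3],[19,15]), (17,23,[22,19,15],[8,3],[18,7])]

def C6 : List Cert := [
  (17,24,[22,19,16,8],[7],[20,18]), (17,25,[27,15,16,3],[28,8],[7,4,2,0]),
  (17,26,[27,7,4,2,0],[29,8],[30,15,19,3]), (17,27,[30,29,8],[7,6,5,4],[18,19,3]),
  (17,28,[8],[26,27,15,19,3],[7,4,2,1]), (17,29,[28,7,6,5,4],[8],[30,14,16,3]),
  (17,30,[33,34,8],[27,7,6,4,1],[15,19,3]), (17,31,[35,34,15,19,3],[8],[29,26,25,7,6,4,1]),
  (17,32,[30,27,7,4,2,1],[35,8],[33,15,16,3]), (17,33,[34,8],[30,27,7,6,5,4],[14,16,3]),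
  (17,34,[14,16,3],[35,32,30,27,7,6,5,4],[8]), (17,35,[31,29,28,7,6,5,4],[33,14,16,3],[8]),
  (18,22,[7,3],[21,19],[24,20]), (18,23,[24,21,19],[7],[15,16,3]), (18,24,[21,20],[7],[23,19,3]),
  (18,25,[28,17,8],[7,4,2,0],[27,19,3]), (18,26,[27,7,4,2,1],[30,19,3],[29,15,14,8]),
  (18,27,[7,4,2,1],[26,29,17,8],[19,3]), (18,28,[17,8],[7,4,2,1],[29,30,19,3]),
  (18,29,[17,8],[32,33,19,3],[28,7,4,2,0]), (18,30,[19,3],[29,17,8],[27,7,4,2,0]),
  (18,31,[29,28,7,6,5,4],[17,8],[35,34,19,3]), (18,32,[30,19,3],[29,28,7,6,5,4],[35,17,8]),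
  (18,33,[19,3],[30,29,28,7,4,2,0],[35,17,8]), (18,34,[33,30,27,7,4,2,0],[17,8],[21,22,3]),
  (18,35,[34,19,3],[33,30,26,25,7,6,4,1],[17,8]), (19,20,[24,21],[18],[7,3]),
  (19,23,[3],[22],[21,20,7]), (19,24,[21,18],[22,3],[16,8,7]),
  (19,25,[26,29,16,8],[18,7,4,2,1],[27,3]), (19,26,[30,3],[29,15,14,8],[25,18,7,6,4,1]),
  (19,27,[3],[30,33,34,16,8],[22,23,7,6,4,1]), (19,28,[16,8],[18,7,4,2,1],[29,32,33,3]),
  (19,29,[16,8],[30,3],[28,21,20,7,4,2,0]), (19,30,[3],[27,18,7,6,4,1],[29,16,8]),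
  (19,31,[29,28,18,7,6,5,4],[35,34,3],[16,8]), (19,32,[35,16,8],[33,3],[30,27,22,23,7,4,2,0]),
  (19,33,[35,16,8],[30,26,28,18,7,6,4,1],[3]), (19,34,[3],[33,30,26,25,21,24,7,6,4,1],[15,14,8]),
  (19,35,[32,30,27,18,7,6,4,1],[16,8],[34,3]), (20,22,[24,23,3],[21],[19,18]),
  (20,23,[21,22,3],[7],[24]), (20,25,[7,4,2,0],[27,24,23,3],[28,18,17,8]),
  (20,26,[25,7,6,5,4],[27,21,19,3],[29,18,17,8]), (20,27,[26,29,18,15,16,8],[7,6,5,4],[24,23,3]),
  (20,28,[7,6,4,1],[29,31,35,34,24,23,3],[18,17,8]), (20,29,[30,24,23,3],[18,17,8],[28,7,4,2,1]),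
  (20,30,[21,19,3],[27,7,6,5,4],[29,18,17,8]), (20,31,[32,33,24,23,3],[29,28,7,4,2,1],[18,17,8]),
  (20,32,[31,18,19,16,8],[33,24,23,3],[30,26,25,7,6,5,4]),
  (20,33,[30,27,7,4,2,0],[24,23,3],[34,18,17,8]),
  (20,34,[18,15,14,8],[33,30,27,7,6,4,1],[21,19,3]),
  (20,35,[18,17,8],[33,21,22,3],[32,29,28,7,4,2,1]), (21,23,[24],[22],[19,7,3]),
  (21,25,[28,18,17,8],[27,22,3],[24,7,6,5,4]),
  (21,26,[30,33,34,19,15,17,8],[27,22,3],[28,20,7,4,2,1]),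
  (21,27,[22,3],[18,7,4,2,1],[26,29,19,16,8]), (21,28,[18,17,8],[25,27,22,3],[20,7,6,5,4]),
  (21,29,[19,16,8],[28,20,7,4,2,1],[30,22,3]), (21,30,[22,3],[33,34,19,16,8],[27,24,7,6,5,4]),
  (21,31,[35,33,22,3],[19,16,8],[29,28,20,7,6,4,1]),
  (21,32,[30,24,23,3],[31,19,16,8],[29,28,18,7,4,2,0]),
  (21,33,[34,18,15,14,8],[30,27,20,7,6,5,4],[22,3]),
  (21,34,[33,30,27,20,7,4,2,0],[22,3],[19,16,8]),
  (21,35,[31,29,28,20,7,4,2,0],[34,19,3],[18,17,8]), (22,25,[26,30,3],[28,19,16,8],[24,7,6,4,1])]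

def C7 : List Cert := [
  (22,26,[27,24,7,6,4,1],[28,19,16,8],[30,3]), (22,27,[26,29,21,18,17,8],[3],[24,7,6,5,4]),
  (22,28,[29,30,3],[23,7,6,5,4],[19,16,8]), (22,29,[32,33,3],[28,23,7,6,5,4],[19,16,8]),
  (22,30,[27,23,7,4,2,0],[3],[29,21,18,17,8]), (22,31,[32,33,3],[19,16,8],[29,28,23,7,6,5,4]),
  (22,32,[35,19,16,8],[30,3],[29,28,24,7,4,2,0]), (22,33,[34,19,16,8],[3],[30,27,24,7,4,2,1]),
  (22,34,[19,16,8],[33,30,27,24,7,6,4,1],[3]), (22,35,[33,3],[19,16,8],[31,29,28,23,7,4,2,0]),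
  (23,25,[7,6,4,1],[27,3],[28,22,19,16,8]), (23,26,[27,3],[25,7,6,4,1],[30,32,35,22,19,15,17,8]),
  (23,27,[3],[7,4,2,0],[26,28,22,21,18,17,8]), (23,28,[29,30,3],[22,19,16,8],[7,4,2,0]),
  (23,29,[30,3],[22,19,16,8],[28,7,6,5,4]), (23,30,[27,7,4,2,0],[3],[29,22,19,15,17,8]),
  (23,31,[29,28,7,4,2,1],[35,33,3],[22,19,16,8]), (23,32,[33,3],[30,27,7,4,2,0],[35,22,19,16,8]),
  (23,33,[30,27,7,4,2,0],[3],[35,22,19,16,8]), (23,34,[33,30,26,25,7,4,2,1],[24,21,18,17,8],[3]),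
  (23,35,[33,30,27,7,6,5,4],[24,21,18,17,8],[34,3]), (24,25,[7,6,5,4],[28,20,18,17,8],[27,22,3]),
  (24,26,[25,7,4,2,1],[30,22,3],[29,20,18,17,8]), (24,27,[30,32,31,21,19,16,8],[7,6,4,1],[23,3]),
  (24,28,[25,27,22,3],[21,18,15,14,8],[7,6,5,4]), (24,29,[21,19,16,8],[30,22,3],[28,7,4,2,0]),
  (24,30,[23,3],[27,7,6,5,4],[29,22,19,16,8]),
  (24,31,[32,30,27,7,6,4,1],[20,18,17,8],[35,33,23,3]),
  (24,32,[31,20,18,17,8],[30,22,3],[29,28,7,6,4,1]),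
  (24,33,[35,20,18,17,8],[23,3],[30,27,7,4,2,0]),
  (24,34,[22,3],[21,19,16,8],[35,32,30,27,7,6,4,1]),
  (24,35,[32,30,27,7,4,2,0],[33,23,3],[22,19,15,17,8]), (25,29,[28],[8,4],[27,26]),
  (25,30,[27,26],[29,28],[4,3]), (25,31,[32,33,27,3],[8,4],[29,26]),
  (25,32,[29,28],[30,27],[35,8,4]), (25,33,[4,3],[34,28,8],[30,26]),
  (25,34,[28,8],[33,29,30,27],[4,3]), (25,35,[31,29,28],[8,4],[32,30,27]),
  (26,31,[32,30,3],[28,8],[29]), (26,32,[30],[35,27,8,3],[29]), (26,33,[34,29,8],[27,3],[30]),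
  (26,34,[35,33,30],[28,8],[27,3]), (26,35,[28,8],[33,27,3],[32,29]), (27,28,[26,30,3],[25],[4]),
  (27,29,[30],[28,26],[8,3]), (27,31,[29,26],[32,33,3],[8,4]), (27,32,[30],[33,3],[29,28,4]),
  (27,33,[35,8,4],[30,29],[3]), (27,34,[35,31,29,28,25],[33,30],[4,3]),
  (27,35,[8,3],[32,30],[31,29,26]), (28,30,[26],[27,4],[29,8]), (28,31,[8],[29],[32,30,4,3]),
  (28,32,[26,30,3],[31,8],[29]), (28,33,[35,8],[30,29],[4,3]), (28,34,[25,27,3],[8],[33,30,29]),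
  (28,35,[33,30,26],[8,3],[31,29]), (29,33,[35,32],[30],[8,3]), (29,34,[35,32],[8],[30,3]),
  (29,35,[32,31],[33,30],[8,3]), (30,31,[32,29],[26,28,8],[35,33]), (30,34,[8,3],[33],[35,32]),
  (30,35,[32],[33,3],[29,8]), (31,33,[32],[35],[29,8,3]), (31,34,[35],[33,32],[29,8]),
  (32,34,[35],[33],[31,8,3])]

def C : List Cert := C0 ++ C1 ++ C2 ++ C3 ++ C4 ++ C5 ++ C6 ++ C7

lemma C_ok : ∀ c ∈ C, c.2.1 < 36 ∧ c.ok := by decide +kernel

lemma C_eq : C.map (fun c => 36 * c.1 + c.2.1) =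
    (List.range 1296).filter fun k => k / 36 < k % 36 && !adj (k / 36) (k % 36) := by
  decide +kernel

lemma C_all (u v : Fin 36) (q : u < v) (h : ¬ T.Adj u v) :
    ∃ c ∈ C, c.1 = u.val ∧ c.2.1 = v.val := by
  have hu := u.2
  have hv := v.2
  have e1 : (36 * u.val + v.val) / 36 = u.val := by omega
  have e2 : (36 * u.val + v.val) % 36 = v.val := by omega
  have : 36 * u.val + v.val ∈ C.map (fun c => 36 * c.1 + c.2.1) := by
    rw [C_eq, List.mem_filter, e1, e2]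
    exact ⟨List.mem_range.2 (by omega), by simpa using ⟨q, Bool.eq_false_iff.2 h⟩⟩
  obtain ⟨c, hc, e⟩ := List.mem_map.1 this
  have := (C_ok c hc).1
  exact ⟨c, hc, by omega, by omega⟩

theorem T_max (H : SimpleGraph (Fin 36)) (h : T < H) : ¬ Planar H := by
  intro hp
  obtain ⟨u, v, k, k'⟩ : ∃ u v, H.Adj u v ∧ ¬ T.Adj u v := by
    by_contra hn
    push Not at hn
    exact h.2 fun u v k => hn u v k
  rcases lt_or_gt_of_ne k.ne with q | q
  · obtain ⟨c, hc, e1, e2⟩ := C_all u v q k'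
    exact Cert.bad (C_ok c hc).2 h.1 e1 e2 k hp.noK
  · obtain ⟨c, hc, e1, e2⟩ := C_all v u q fun z => k' z.symm
    exact Cert.bad (C_ok c hc).2 h.1 e1 e2 k.symm hp.noK

/-- the two colours lie in different halves -/
def op (a b : Fin 4) : Prop := ¬ (a.val < 2 ↔ b.val < 2)

instance (a b : Fin 4) : Decidable (op a b) := by unfold op; infer_instance

set_option synthInstance.maxSize 4000 in
lemma gadget : ∀ c7 c8 : Fin 4, ¬ op c7 c8 → c7 ≠ c8 →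
    ∀ c3 : Fin 4, c3 ≠ c7 → c3 ≠ c8 →
    ∀ c2 : Fin 4, c2 ≠ c3 → c2 ≠ c7 →
    ∀ c4 : Fin 4, c3 ≠ c4 → c4 ≠ c8 →
    ∀ c0 : Fin 4, c0 ≠ c2 → c0 ≠ c3 → c0 ≠ c4 →
    ∀ c1 : Fin 4, c0 ≠ c1 → c1 ≠ c2 → c1 ≠ c4 →
    ∀ c6 : Fin 4, c1 ≠ c6 → c2 ≠ c6 → c6 ≠ c7 →
    ∀ c5 : Fin 4, c1 ≠ c5 → c4 ≠ c5 → c5 ≠ c6 → c5 ≠ c8 →
    ∀ c12 : Fin 4, c7 ≠ c12 → c8 ≠ c12 →
    ∀ c11 : Fin 4, c6 ≠ c11 → c7 ≠ c11 → c11 ≠ c12 →
    ∀ c13 : Fin 4, c8 ≠ c13 → c11 ≠ c13 → c12 ≠ c13 →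
    ∀ c9 : Fin 4, c5 ≠ c9 → c8 ≠ c9 → c9 ≠ c13 →
    ∀ c10 : Fin 4, c5 ≠ c10 → c6 ≠ c10 → c9 ≠ c10 → c10 ≠ c11 → c10 ≠ c13 →
    (op c1 c0 ∧ op c2 c0 ∧ op c3 c0 ∧ op c4 c0) ∨ (op c5 c9 ∧ op c8 c9 ∧ op c10 c9 ∧ op c13 c9) ∨
    (op c7 c12 ∧ op c8 c12 ∧ op c11 c12 ∧ op c13 c12) := by
  decide +kernel

lemma copy0 (c : Fin 36 → Fin 4) (p : ∀ u v, T.Adj u v → c u ≠ c v) (h : ¬ op (c 7) (c 8)) :
    ∃ v, ∀ u, T.Adj v u → op (c u) (c v) := by
  have n : ∀ {v a b d e : Fin 36}, (∀ u, T.Adj v u → u = a ∨ u = b ∨ u = d ∨ u = e) →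
      op (c a) (c v) ∧ op (c b) (c v) ∧ op (c d) (c v) ∧ op (c e) (c v) →
      ∃ v, ∀ u, T.Adj v u → op (c u) (c v) := by
    rintro v a b d e k ⟨k1, k2, k3, k4⟩
    refine ⟨v, fun u hu => ?_⟩
    rcases k u hu with rfl | rfl | rfl | rfl <;> assumption
  rcases gadget _ _ h (p 7 8 (by decide +kernel))
      _ (p 3 7 (by decide +kernel)) (p 3 8 (by decide +kernel))
      _ (p 2 3 (by decide +kernel)) (p 2 7 (by decide +kernel))
      _ (p 3 4 (by decide +kernel)) (p 4 8 (by decide +kernel))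
      _ (p 0 2 (by decide +kernel)) (p 0 3 (by decide +kernel)) (p 0 4 (by decide +kernel))
      _ (p 0 1 (by decide +kernel)) (p 1 2 (by decide +kernel)) (p 1 4 (by decide +kernel))
      _ (p 1 6 (by decide +kernel)) (p 2 6 (by decide +kernel)) (p 6 7 (by decide +kernel))
      _ (p 1 5 (by decide +kernel)) (p 4 5 (by decide +kernel)) (p 5 6 (by decide +kernel))
      (p 5 8 (by decide +kernel))
      _ (p 7 12 (by decide +kernel)) (p 8 12 (by decide +kernel))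
      _ (p 6 11 (by decide +kernel)) (p 7 11 (by decide +kernel)) (p 11 12 (by decide +kernel))
      _ (p 8 13 (by decide +kernel)) (p 11 13 (by decide +kernel)) (p 12 13 (by decide +kernel))
      _ (p 5 9 (by decide +kernel)) (p 8 9 (by decide +kernel)) (p 9 13 (by decide +kernel))
      _ (p 5 10 (by decide +kernel)) (p 6 10 (by decide +kernel)) (p 9 10 (by decide +kernel))
      (p 10 11 (by decide +kernel)) (p 10 13 (by decide +kernel)) with k | k | k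
  · exact n (by decide +kernel) k
  · exact n (by decide +kernel) k
  · exact n (by decide +kernel) k

lemma copy1 (c : Fin 36 → Fin 4) (p : ∀ u v, T.Adj u v → c u ≠ c v) (h : ¬ op (c 3) (c 7)) :
    ∃ v, ∀ u, T.Adj v u → op (c u) (c v) := by
  have n : ∀ {v a b d e : Fin 36}, (∀ u, T.Adj v u → u = a ∨ u = b ∨ u = d ∨ u = e) →
      op (c a) (c v) ∧ op (c b) (c v) ∧ op (c d) (c v) ∧ op (c e) (c v) →
      ∃ v, ∀ u, T.Adj v u → op (c u) (c v) := by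
    rintro v a b d e k ⟨k1, k2, k3, k4⟩
    refine ⟨v, fun u hu => ?_⟩
    rcases k u hu with rfl | rfl | rfl | rfl <;> assumption
  rcases gadget _ _ h (p 3 7 (by decide +kernel))
      _ (p 8 3 (by decide +kernel)) (p 8 7 (by decide +kernel))
      _ (p 16 8 (by decide +kernel)) (p 16 3 (by decide +kernel))
      _ (p 8 17 (by decide +kernel)) (p 17 7 (by decide +kernel))
      _ (p 14 16 (by decide +kernel)) (p 14 8 (by decide +kernel)) (p 14 17 (by decide +kernel))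
      _ (p 14 15 (by decide +kernel)) (p 15 16 (by decide +kernel)) (p 15 17 (by decide +kernel))
      _ (p 15 19 (by decide +kernel)) (p 16 19 (by decide +kernel)) (p 19 3 (by decide +kernel))
      _ (p 15 18 (by decide +kernel)) (p 17 18 (by decide +kernel)) (p 18 19 (by decide +kernel))
      (p 18 7 (by decide +kernel))
      _ (p 3 23 (by decide +kernel)) (p 7 23 (by decide +kernel))
      _ (p 19 22 (by decide +kernel)) (p 3 22 (by decide +kernel)) (p 22 23 (by decide +kernel))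
      _ (p 7 24 (by decide +kernel)) (p 22 24 (by decide +kernel)) (p 23 24 (by decide +kernel))
      _ (p 18 20 (by decide +kernel)) (p 7 20 (by decide +kernel)) (p 20 24 (by decide +kernel))
      _ (p 18 21 (by decide +kernel)) (p 19 21 (by decide +kernel)) (p 20 21 (by decide +kernel))
      (p 21 22 (by decide +kernel)) (p 21 24 (by decide +kernel)) with k | k | k
  · exact n (by decide +kernel) k
  · exact n (by decide +kernel) k
  · exact n (by decide +kernel) k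

lemma copy2 (c : Fin 36 → Fin 4) (p : ∀ u v, T.Adj u v → c u ≠ c v) (h : ¬ op (c 3) (c 8)) :
    ∃ v, ∀ u, T.Adj v u → op (c u) (c v) := by
  have n : ∀ {v a b d e : Fin 36}, (∀ u, T.Adj v u → u = a ∨ u = b ∨ u = d ∨ u = e) →
      op (c a) (c v) ∧ op (c b) (c v) ∧ op (c d) (c v) ∧ op (c e) (c v) →
      ∃ v, ∀ u, T.Adj v u → op (c u) (c v) := by
    rintro v a b d e k ⟨k1, k2, k3, k4⟩
    refine ⟨v, fun u hu => ?_⟩
    rcases k u hu with rfl | rfl | rfl | rfl <;> assumption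
  rcases gadget _ _ h (p 3 8 (by decide +kernel))
      _ (p 4 3 (by decide +kernel)) (p 4 8 (by decide +kernel))
      _ (p 27 4 (by decide +kernel)) (p 27 3 (by decide +kernel))
      _ (p 4 28 (by decide +kernel)) (p 28 8 (by decide +kernel))
      _ (p 25 27 (by decide +kernel)) (p 25 4 (by decide +kernel)) (p 25 28 (by decide +kernel))
      _ (p 25 26 (by decide +kernel)) (p 26 27 (by decide +kernel)) (p 26 28 (by decide +kernel))
      _ (p 26 30 (by decide +kernel)) (p 27 30 (by decide +kernel)) (p 30 3 (by decide +kernel))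
      _ (p 26 29 (by decide +kernel)) (p 28 29 (by decide +kernel)) (p 29 30 (by decide +kernel))
      (p 29 8 (by decide +kernel))
      _ (p 3 34 (by decide +kernel)) (p 8 34 (by decide +kernel))
      _ (p 30 33 (by decide +kernel)) (p 3 33 (by decide +kernel)) (p 33 34 (by decide +kernel))
      _ (p 8 35 (by decide +kernel)) (p 33 35 (by decide +kernel)) (p 34 35 (by decide +kernel))
      _ (p 29 31 (by decide +kernel)) (p 8 31 (by decide +kernel)) (p 31 35 (by decide +kernel))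
      _ (p 29 32 (by decide +kernel)) (p 30 32 (by decide +kernel)) (p 31 32 (by decide +kernel))
      (p 32 33 (by decide +kernel)) (p 32 35 (by decide +kernel)) with k | k | k
  · exact n (by decide +kernel) k
  · exact n (by decide +kernel) k
  · exact n (by decide +kernel) k

theorem T_col (c : Fin 36 → Fin 4) (p : ∀ u v, T.Adj u v → c u ≠ c v) :
    ∃ v, ∀ u, T.Adj v u → op (c u) (c v) := by
  by_cases h0 : op (c 7) (c 8)
  · by_cases h1 : op (c 3) (c 7)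
    · exact copy2 c p (by unfold op at *; tauto)
    · exact copy1 c p h1
  · exact copy0 c p h0

end Pool.Agent.MP_2b7300_co

end
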